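import Mathlib
import Pool.Agent.W2helper93.KC.Stm
import Pool.Agent.W2helper93.KC.Stm2

set_option autoImplicit false

/-!
# Piece POIS of project KC: Poisson summation and the diffraction measure of a lattice comb
-/

open MeasureTheory Filter Topology
open scoped FourierTransform SchwartzMap

namespace Pool.Agent.W2helper73.KC

open Pool.Agent.W2helper93.KC

/-- quadratic decay -/
theorem decay2 (g : 𝓢(ℝ, ℂ)) : ∃ C : ℝ, 0 ≤ C ∧ ∀ x, ‖g x‖ ≤ C / (1 + x ^ 2) := by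
  obtain ⟨C0, h0, hC0⟩ := g.decay 0 0
  obtain ⟨C2, h2, hC2⟩ := g.decay 2 0
  refine ⟨C0 + C2, by positivity, fun x => ?_⟩
  have e0 := hC0 x
  have e2 := hC2 x
  rw [norm_iteratedFDeriv_zero] at e0 e2
  rw [pow_zero, one_mul] at e0
  rw [Real.norm_eq_abs, sq_abs] at e2
  rw [le_div_iff₀ (by positivity)]
  nlinarith

/-- the bound on the translates of the unit interval -/
theorem decay_int (g : 𝓢(ℝ, ℂ)) : ∃ C : ℝ, 0 ≤ C ∧ ∀ (t : ℝ) (j : ℤ), 0 ≤ t → t < 1 →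
    ‖g (t + j)‖ ≤ C / (1 + (j : ℝ) ^ 2) := by
  obtain ⟨C, hC, h⟩ := decay2 g
  refine ⟨3 * C, by positivity, fun t j ht0 ht1 => (h _).trans ?_⟩
  rw [div_le_div_iff₀ (by positivity) (by positivity)]
  have h1 : 1 + (j : ℝ) ^ 2 ≤ 3 * (1 + (t + j) ^ 2) := by
    nlinarith [sq_nonneg ((j : ℝ) + 2 * t)]
  nlinarith

theorem summable_quad (C : ℝ) : Summable fun j : ℤ => C / (1 + (j : ℝ) ^ 2) := by
  have h1 : Summable fun j : ℤ => 1 / (j : ℝ) ^ 2 := Real.summable_one_div_int_pow.2 one_lt_two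
  have h2 : Summable fun j : ℤ => if j = 0 then (1 : ℝ) else 0 :=
    summable_of_ne_finset_zero (s := {0}) (fun j hj => by
      rw [Finset.mem_singleton] at hj
      rw [if_neg hj])
  have h3 : Summable fun j : ℤ => 1 / (1 + (j : ℝ) ^ 2) := by
    refine Summable.of_nonneg_of_le (fun j => by positivity) (fun j => ?_) (h1.add h2)
    by_cases hj : j = 0
    · subst hj
      simp
    · rw [if_neg hj, add_zero]
      have hj' : (j : ℝ) ≠ 0 := by exact_mod_cast hj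
      have : 0 < (j : ℝ) ^ 2 := by positivity
      exact one_div_le_one_div_of_le this (by linarith)
  simpa [div_eq_mul_inv] using h3.mul_left C

/-- Fourier transform of a dilation -/
theorem fourier_dil (f : ℝ → ℂ) {h : ℝ} (hh : 0 < h) (w : ℝ) :
    𝓕 (fun x : ℝ => f (x * h⁻¹)) w = (h : ℂ) * 𝓕 f (h * w) := by
  rw [Real.fourier_real_eq, Real.fourier_real_eq]
  have h1 := Measure.integral_comp_mul_left (fun y : ℝ => Real.fourierChar (-(y * (h * w))) • f y) h⁻¹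
  have h2 : ∀ v : ℝ, Real.fourierChar (-(h⁻¹ * v * (h * w))) • f (h⁻¹ * v) =
      Real.fourierChar (-(v * w)) • f (v * h⁻¹) := by
    intro v
    have e : h⁻¹ * v * (h * w) = v * w := by
      field_simp
    rw [e, mul_comm h⁻¹ v]
  simp only [h2] at h1
  rw [h1, inv_inv, abs_of_pos hh, Complex.real_smul]

/-- the dilated function -/
noncomputable def dil (h : ℝ) (hh : h ≠ 0) (φ : 𝓢(ℝ, ℂ)) : 𝓢(ℝ, ℂ) :=
  SchwartzMap.compCLMOfContinuousLinearEquiv ℂ
    (ContinuousLinearEquiv.unitsEquivAut ℝ (Units.mk0 h⁻¹ (inv_ne_zero hh))) φ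

theorem dil_apply (h : ℝ) (hh : h ≠ 0) (φ : 𝓢(ℝ, ℂ)) (x : ℝ) : dil h hh φ x = φ (x * h⁻¹) := rfl

theorem rep_nonneg (z : AddCircle (1 : ℝ)) : 0 ≤ rep z := by
  have := (AddCircle.equivIco (1 : ℝ) 0 z).2.1
  exact this

theorem rep_lt (z : AddCircle (1 : ℝ)) : rep z < 1 := by
  have h : ((AddCircle.equivIco (1 : ℝ) 0 z : Set.Ico (0 : ℝ) (0 + 1)) : ℝ) < 0 + 1 :=
    (AddCircle.equivIco (1 : ℝ) 0 z).2.2
  exact h.trans_eq (zero_add 1)

theorem coe_rep (z : AddCircle (1 : ℝ)) : ((rep z : ℝ) : AddCircle (1 : ℝ)) = z :=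
  AddCircle.coe_equivIco

theorem measurable_rep : Measurable rep :=
  measurable_subtype_coe.comp (AddCircle.measurableEquivIco (1 : ℝ) 0).measurable

theorem p_pois2 : P_POIS2 := by
  intro ν h ρ hh hν hρ hF φ
  have hne : h ≠ 0 := hh.ne'
  -- bound of the coefficients
  have hνle : ∀ k, ν k ≤ ρ.real Set.univ := by
    intro k
    have h1 : ‖∫ z, (fourier k z : ℂ) ∂ρ‖ ≤ 1 * ρ.real Set.univ :=
      norm_integral_le_of_norm_le_const (ae_of_all _ fun z => by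
        rw [fourier_apply]; exact (Circle.norm_coe _).le)
    rw [hF k, Complex.norm_real, Real.norm_eq_abs, abs_of_nonneg (hν k), one_mul] at h1
    exact h1
  have hM : 0 ≤ ρ.real Set.univ := measureReal_nonneg
  -- the dilated function
  set g : 𝓢(ℝ, ℂ) := dil h hne φ with hg
  have hgF : ∀ k : ℤ, (𝓕 g : 𝓢(ℝ, ℂ)) (k : ℝ) = (h : ℂ) * (𝓕 φ : 𝓢(ℝ, ℂ)) (h * k) := by
    intro k
    exact fourier_dil (φ : ℝ → ℂ) hh k
  -- part 1: the integrability with respect to eta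
  have hsum1 : Summable fun k : ℤ => (ENNReal.ofReal (ν k / h)).toReal *
      ‖(𝓕 φ : 𝓢(ℝ, ℂ)) (h * k)‖ := by
    obtain ⟨C, hC, hb⟩ := decay_int (𝓕 g : 𝓢(ℝ, ℂ))
    refine Summable.of_nonneg_of_le (fun k => by positivity) (fun k => ?_)
      (summable_quad (ρ.real Set.univ / h * h⁻¹ * C))
    have h1 := hb 0 k le_rfl zero_lt_one
    rw [zero_add, hgF k, norm_mul, Complex.norm_real, Real.norm_eq_abs, abs_of_pos hh] at h1
    rw [ENNReal.toReal_ofReal (div_nonneg (hν k) hh.le)]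
    have h2 : ‖(𝓕 φ : 𝓢(ℝ, ℂ)) (h * k)‖ ≤ h⁻¹ * (C / (1 + (k : ℝ) ^ 2)) := by
      rw [← div_eq_inv_mul, le_div_iff₀ hh, mul_comm]
      exact h1
    calc ν k / h * ‖(𝓕 φ : 𝓢(ℝ, ℂ)) (h * k)‖
        ≤ ρ.real Set.univ / h * (h⁻¹ * (C / (1 + (k : ℝ) ^ 2))) :=
          mul_le_mul (div_le_div_of_nonneg_right (hνle k) hh.le) h2 (norm_nonneg _)
            (div_nonneg hM hh.le)
      _ = ρ.real Set.univ / h * h⁻¹ * C / (1 + (k : ℝ) ^ 2) := by ring
  have hint1 : Integrable (𝓕 φ : 𝓢(ℝ, ℂ)) (eta h ν) :=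
    integrable_sum_dirac (fun k => ENNReal.ofReal_ne_top) hsum1
  -- part 2: the integrability with respect to del
  obtain ⟨Cg, hCg, hbg⟩ := decay_int g
  have hmeas : ∀ j : ℤ, Measurable fun z : AddCircle (1 : ℝ) => (rep z + j) / h := fun j =>
    (measurable_rep.add_const _).div_const _
  have hgφ : ∀ (z : AddCircle (1 : ℝ)) (j : ℤ), φ ((rep z + j) / h) = g (rep z + j) := by
    intro z j
    rw [hg, dil_apply, div_eq_mul_inv]
  have hbound : ∀ (z : AddCircle (1 : ℝ)) (j : ℤ), ‖g (rep z + j)‖ ≤ Cg / (1 + (j : ℝ) ^ 2) :=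
    fun z j => hbg _ j (rep_nonneg z) (rep_lt z)
  have hFint : ∀ j : ℤ, Integrable (fun z => g (rep z + j)) ρ := by
    intro j
    refine Integrable.of_bound (C := Cg / (1 + (j : ℝ) ^ 2)) ?_ (ae_of_all _ fun z => hbound z j)
    exact (g.continuous.measurable.comp (measurable_rep.add_const _)).aestronglyMeasurable
  have hnormint : ∀ j : ℤ, ∫ z, ‖g (rep z + j)‖ ∂ρ ≤
      ρ.real Set.univ * Cg / (1 + (j : ℝ) ^ 2) := by
    intro j
    calc ∫ z, ‖g (rep z + j)‖ ∂ρ ≤ ∫ _z, Cg / (1 + (j : ℝ) ^ 2) ∂ρ :=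
          integral_mono (hFint j).norm (integrable_const _) (fun z => hbound z j)
      _ = ρ.real Set.univ * Cg / (1 + (j : ℝ) ^ 2) := by
          rw [integral_const, smul_eq_mul]; ring
  have hsumnorm : Summable fun j : ℤ => ∫ z, ‖g (rep z + j)‖ ∂ρ :=
    Summable.of_nonneg_of_le (fun j => integral_nonneg fun z => norm_nonneg _) hnormint
      (summable_quad _)
  have hmapint : ∀ j : ℤ, Integrable φ (ρ.map fun z => (rep z + j) / h) := by
    intro j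
    rw [integrable_map_measure φ.continuous.aestronglyMeasurable (hmeas j).aemeasurable]
    refine (hFint j).congr (ae_of_all _ fun z => ?_)
    exact (hgφ z j).symm
  have hmapnorm : ∀ j : ℤ, ∫ x, ‖φ x‖ ∂(ρ.map fun z => (rep z + j) / h) =
      ∫ z, ‖g (rep z + j)‖ ∂ρ := by
    intro j
    rw [integral_map (hmeas j).aemeasurable φ.continuous.norm.aestronglyMeasurable]
    refine integral_congr_ae (ae_of_all _ fun z => ?_)
    show ‖φ ((rep z + j) / h)‖ = _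
    rw [hgφ]
  have hsumint : Integrable φ (Measure.sum fun j : ℤ => ρ.map fun z => (rep z + j) / h) := by
    refine integrable_sum_measure hmapint ?_
    simp only [hmapnorm]
    exact hsumnorm
  have hint2 : Integrable φ (del h ρ) := hsumint.smul_measure ENNReal.ofReal_ne_top
  refine ⟨hint2, hint1, ?_⟩
  -- part 3: the identity
  have hL : ∫ x, (𝓕 φ : 𝓢(ℝ, ℂ)) x ∂(eta h ν) =
      ∑' k : ℤ, (ENNReal.ofReal (ν k / h)).toReal • (𝓕 φ : 𝓢(ℝ, ℂ)) (h * k) :=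
    integral_sum_dirac fun k => ENNReal.ofReal_ne_top
  have hR0 : ∫ x, φ x ∂(del h ρ) = (h⁻¹ ^ 2 : ℝ) •
      ∑' j : ℤ, ∫ x, φ x ∂(ρ.map fun z => (rep z + j) / h) := by
    unfold del
    rw [integral_smul_measure, integral_sum_measure hsumint, ENNReal.toReal_ofReal (by positivity)]
  have hR1 : ∀ j : ℤ, ∫ x, φ x ∂(ρ.map fun z => (rep z + j) / h) = ∫ z, g (rep z + j) ∂ρ := by
    intro j
    rw [integral_map (hmeas j).aemeasurable φ.continuous.aestronglyMeasurable]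
    refine integral_congr_ae (ae_of_all _ fun z => ?_)
    exact hgφ z j
  have hR2 : ∑' j : ℤ, ∫ z, g (rep z + j) ∂ρ = ∫ z, ∑' j : ℤ, g (rep z + j) ∂ρ :=
    (hasSum_integral_of_summable_integral_norm hFint hsumnorm).tsum_eq
  have hR3 : ∀ z : AddCircle (1 : ℝ), ∑' j : ℤ, g (rep z + j) =
      ∑' k : ℤ, (𝓕 g : 𝓢(ℝ, ℂ)) (k : ℝ) * fourier k z := by
    intro z
    have h1 := SchwartzMap.tsum_eq_tsum_fourier g (rep z)
    rw [coe_rep z] at h1
    exact h1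
  obtain ⟨C', hC', hb'⟩ := decay_int (𝓕 g : 𝓢(ℝ, ℂ))
  have hGb : ∀ (k : ℤ) (z : AddCircle (1 : ℝ)), ‖(𝓕 g : 𝓢(ℝ, ℂ)) (k : ℝ) * fourier k z‖ ≤
      C' / (1 + (k : ℝ) ^ 2) := by
    intro k z
    rw [norm_mul, fourier_apply, Circle.norm_coe, mul_one]
    have h1 := hb' 0 k le_rfl zero_lt_one
    rwa [zero_add] at h1
  have hGint : ∀ k : ℤ, Integrable (fun z : AddCircle (1 : ℝ) =>
      (𝓕 g : 𝓢(ℝ, ℂ)) (k : ℝ) * (fourier k z : ℂ)) ρ := by
    intro k
    refine Integrable.of_bound (C := C' / (1 + (k : ℝ) ^ 2)) ?_ (ae_of_all _ fun z => hGb k z)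
    exact (continuous_const.mul (fourier k).continuous).aestronglyMeasurable
  have hGsum : Summable fun k : ℤ => ∫ z : AddCircle (1 : ℝ),
      ‖(𝓕 g : 𝓢(ℝ, ℂ)) (k : ℝ) * (fourier k z : ℂ)‖ ∂ρ := by
    refine Summable.of_nonneg_of_le (fun k => integral_nonneg fun z => norm_nonneg _)
      (fun k => ?_) (summable_quad (ρ.real Set.univ * C'))
    calc ∫ z : AddCircle (1 : ℝ), ‖(𝓕 g : 𝓢(ℝ, ℂ)) (k : ℝ) * (fourier k z : ℂ)‖ ∂ρ
        ≤ ∫ _z : AddCircle (1 : ℝ), C' / (1 + (k : ℝ) ^ 2) ∂ρ :=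
          integral_mono (hGint k).norm (integrable_const _) (fun z => hGb k z)
      _ = ρ.real Set.univ * C' / (1 + (k : ℝ) ^ 2) := by
          rw [integral_const, smul_eq_mul]; ring
  have hR4 : ∫ z, ∑' k : ℤ, (𝓕 g : 𝓢(ℝ, ℂ)) (k : ℝ) * (fourier k z : ℂ) ∂ρ =
      ∑' k : ℤ, ∫ z, (𝓕 g : 𝓢(ℝ, ℂ)) (k : ℝ) * (fourier k z : ℂ) ∂ρ :=
    (hasSum_integral_of_summable_integral_norm hGint hGsum).tsum_eq.symm
  have hR5 : ∀ k : ℤ, ∫ z, (𝓕 g : 𝓢(ℝ, ℂ)) (k : ℝ) * (fourier k z : ℂ) ∂ρ =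
      (h : ℂ) * (𝓕 φ : 𝓢(ℝ, ℂ)) (h * k) * (ν k : ℂ) := by
    intro k
    rw [integral_const_mul, hF k, hgF k]
  rw [hL, hR0]
  simp only [hR1]
  rw [hR2]
  simp only [hR3]
  rw [hR4]
  simp only [hR5]
  rw [← tsum_const_smul'']
  refine tsum_congr fun k => ?_
  rw [ENNReal.toReal_ofReal (div_nonneg (hν k) hh.le), Complex.real_smul, Complex.real_smul]
  have hc : (h : ℂ) ≠ 0 := by exact_mod_cast hne
  push_cast
  field_simp

theorem p_pois : P_POIS := fun ν h ρ hh hν hρ hF => ⟨del h ρ, p_pois2 ν h ρ hh hν hρ hF⟩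

end Pool.Agent.W2helper73.KC
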